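import Mathlib

set_option autoImplicit false

namespace Pool.Agent.H236Z.Dich

open Cardinal

/-- choose points of finitely many unbounded sets in a prescribed order -/
theorem choose_ranked {X ι : Type} [LinearOrder X] [Nonempty X] [Fintype ι] (S : ι → X → Prop)
    (hS : ∀ i a, ∃ b, a < b ∧ S i b) (r : ι → ℕ) :
    ∃ b : ι → X, (∀ i, S i (b i)) ∧ ∀ i i', r i < r i' → b i < b i' := by
  classical
  choose nb hlt hmem using hS
  have hub : ∀ a : X, ∃ u, a ≤ u ∧ ∀ i, nb i a ≤ u := by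
    intro a
    obtain ⟨u, hu⟩ := (insert a (Finset.univ.image fun i => nb i a)).exists_le
    exact ⟨u, hu a (by simp), fun i => hu _ (by simp)⟩
  choose ub hub1 hub2 using hub
  let t : ℕ → X := fun k => Nat.rec (Classical.arbitrary X) (fun _ a => ub a) k
  have ht : ∀ k, t (k + 1) = ub (t k) := fun k => rfl
  have hmono : Monotone t := monotone_nat_of_le_succ fun k => by rw [ht]; exact hub1 _
  refine ⟨fun i => nb i (t (r i)), fun i => hmem _ _, fun i i' h => ?_⟩
  calc nb i (t (r i)) ≤ t (r i + 1) := by rw [ht]; exact hub2 _ _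
    _ ≤ t (r i') := hmono h
    _ < nb i' (t (r i')) := hlt _ _

theorem fat {X C ι : Type} [LinearOrder X] [Nonempty X] [Fintype ι]
    (hX : ∀ g : X → C, ∃ γ, ∀ a, ∃ b, a < b ∧ g b = γ) (m : ℕ) :
    ∀ (c : (Fin m → X) → C) (r : Fin m → ι → ℕ), ∃ (γ : C) (f : ι → Fin m → X),
      (∀ i, c (f i) = γ) ∧ ∀ j i i', r j i < r j i' → f i j < f i' j := by
  induction m with
  | zero =>
    intro c r
    exact ⟨c Fin.elim0, fun _ => Fin.elim0, fun _ => rfl, fun j => j.elim0⟩
  | succ m ih =>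
    intro c r
    choose c' hc' using fun s : Fin m → X => hX fun b => c (Fin.cons b s)
    obtain ⟨γ, f', h1, h2⟩ := ih c' fun j => r j.succ
    obtain ⟨b, hb1, hb2⟩ := choose_ranked (fun i b => c (Fin.cons b (f' i)) = γ)
      (fun i a => by simpa [h1 i] using hc' (f' i) a) (r 0)
    refine ⟨γ, fun i => Fin.cons (b i) (f' i), hb1, fun j i i' h => ?_⟩
    refine Fin.cases (motive := fun j => r j i < r j i' →
      (Fin.cons (b i) (f' i) : Fin (m + 1) → X) j < (Fin.cons (b i') (f' i') : Fin (m + 1) → X) j)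
      (fun h => ?_) (fun j h => ?_) j h
    · simpa using hb2 i i' h
    · simpa using h2 j i i' h

theorem unbounded_colour {μ : Cardinal.{0}} (hμ : μ.IsRegular) {C : Type} (hC : #C < μ)
    (g : μ.ord.ToType → C) : ∃ γ, ∀ a, ∃ b, a < b ∧ g b = γ := by
  have hm : #μ.ord.ToType = μ := mk_ord_toType μ
  obtain ⟨γ, hγ⟩ := Cardinal.infinite_pigeonhole g (by rw [hm]; exact hμ.aleph0_le)
    (by rw [hm, hμ.cof_ord]; exact hC)
  refine ⟨γ, fun a => ?_⟩
  by_contra hcon
  push Not at hcon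
  have hsub : g ⁻¹' {γ} ⊆ insert a (Set.Iio a) := by
    intro b hb
    rcases lt_trichotomy a b with h | h | h
    · exact absurd hb (hcon b h)
    · exact Or.inl h.symm
    · exact Or.inr h
  have h1 : #(g ⁻¹' {γ}) ≤ #(Set.Iio a) + 1 := (mk_le_mk_of_subset hsub).trans mk_insert_le
  have h2 : #(Set.Iio a) + 1 < μ :=
    add_lt_of_lt hμ.aleph0_le (mk_Iio_toType_ord_lt a) (one_lt_aleph0.trans_le hμ.aleph0_le)
  rw [hγ, hm] at h1
  exact absurd (h1.trans_lt h2) (lt_irrefl _)

theorem exists_regular {κ c : Cardinal.{0}} (hκ : ℵ₀ ≤ κ) (hc : c < κ) :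
    ∃ μ : Cardinal.{0}, μ.IsRegular ∧ c < μ ∧ μ ≤ κ := by
  rcases lt_or_ge c ℵ₀ with h | h
  · exact ⟨ℵ₀, isRegular_aleph0, h, hκ⟩
  · exact ⟨Order.succ c, isRegular_succ h, Order.lt_succ c, Order.succ_le_of_lt hc⟩

theorem main : ∀ κ : Cardinal.{0}, Cardinal.aleph0 ≤ κ → ∀ n : ℕ,
    ∃ (V : Type) (D : Digraph V),
      Cardinal.mk V = κ ∧
      (∀ v : V, ¬ D.Adj v v) ∧
      (∀ k : ℕ, k + 1 < n → ∀ f : Fin (k + 1) → V, Function.Injective f →
        ¬ ∀ i : Fin (k + 1), D.Adj (f i) (f (i + 1))) ∧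
      (∀ (C : Type) (c : V → C), Cardinal.mk C < κ →
        ∃ k : ℕ, ∃ f : Fin (k + 1) → V, Function.Injective f ∧
          (∀ i : Fin (k + 1), D.Adj (f i) (f (i + 1))) ∧
          ∀ i j : Fin (k + 1), c (f i) = c (f j)) := by
  classical
  intro κ hκ n
  refine ⟨Fin (n + 1 + 1) → κ.ord.ToType, ⟨fun x y => ∃ j0, ∀ j, j ≠ j0 → x j < y j⟩, ?_, ?_, ?_, ?_⟩
  · rw [mk_arrow]
    simp only [lift_id, mk_ord_toType, mk_fin]
    exact power_nat_eq hκ (by omega)
  · rintro v ⟨j0, h⟩
    obtain ⟨j, hj⟩ := exists_ne j0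
    exact lt_irrefl _ (h j hj)
  · intro k hk f _ h
    choose j0 hj0 using h
    have hns : ¬ Function.Surjective j0 := by
      intro hs
      have := Fintype.card_le_of_surjective j0 hs
      simp at this
      omega
    obtain ⟨j, hj⟩ := not_forall.1 hns
    obtain ⟨i, -, hi⟩ := Finset.univ.exists_max_image (fun i => f i j) Finset.univ_nonempty
    exact absurd (hj0 i j fun e => hj ⟨i, e.symm⟩) (not_lt.2 (hi _ (Finset.mem_univ _)))
  · intro C c hC
    obtain ⟨μ, hμ, hCμ, hμκ⟩ := exists_regular hκ hC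
    have hle : Ordinal.type (α := μ.ord.ToType) (· < ·) ≤ Ordinal.type (α := κ.ord.ToType) (· < ·) := by
      rw [Ordinal.type_toType, Ordinal.type_toType]
      exact ord_le_ord.2 hμκ
    obtain ⟨e⟩ := Ordinal.type_le_iff'.1 hle
    haveI : Nonempty μ.ord.ToType := by
      rw [← mk_ne_zero_iff, mk_ord_toType]
      exact hμ.pos.ne'
    obtain ⟨γ, f, h1, h2⟩ := fat (ι := Fin (n + 1 + 1)) (unbounded_colour hμ hCμ) (n + 1 + 1)
      (fun s => c fun j => e (s j)) (fun j i => (i - j).val)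
    refine ⟨n + 1, fun i j => e (f i j), ?_, fun i => ⟨i + 1, fun j hj => ?_⟩,
      fun i j => by rw [h1 i, h1 j]⟩
    · intro i i' h
      have h0 : f i 0 = f i' 0 := e.injective (congrFun h 0)
      rcases lt_trichotomy i i' with hl | hl | hl
      · exact absurd h0 (h2 0 i i' (by simpa using hl)).ne
      · exact hl
      · exact absurd h0 (h2 0 i' i (by simpa using hl)).ne'
    · refine e.map_rel_iff.2 (h2 j i (i + 1) ?_)
      have e1 : i + 1 - j = (i - j) + 1 := by abel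
      have e2 : i - j ≠ Fin.last (n + 1) := by
        intro h
        apply hj
        have : i + 1 - j = 0 := by rw [e1, h]; simp
        exact (sub_eq_zero.1 this).symm
      simp only [e1]
      rw [Fin.val_add_one_of_lt (Fin.lt_last_iff_ne_last.2 e2)]
      omega

end Pool.Agent.H236Z.Dich
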